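import Pool.Agent.H51.EM.Targets
import Pool.Agent.H25.EE.TargetsB

/-!
# MP_58ae59_nt, board em_modules, row ENT: the entries as inner products (an adaptation of
`Pool/Agent/H68/EI/ENT.lean`)
-/

set_option autoImplicit false

open Polynomial Finset

namespace Pool.Agent.H65.EM.ENT

open Pool.Agent.H51.EM
open Pool.Agent.H51.EI (toC ev)
open Pool.Agent.H25.EE (Idx Ix mlt nd s0 s1 hn EX exo)

variable {O : Subring ℂ} {X0 : ℂ}

private theorem ev_mul (P Q : (↥O)[X]) (x : ℂ) : ev (P * Q) x = ev P x * ev Q x := by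
  simp [ev, toC]

private theorem ev_add (P Q : (↥O)[X]) (x : ℂ) : ev (P + Q) x = ev P x + ev Q x := by
  simp [ev, toC]

private theorem ev_pow (P : (↥O)[X]) (n : ℕ) (x : ℂ) : ev (P ^ n) x = ev P x ^ n := by
  simp [ev, toC]

private theorem ev_C (c : O) (x : ℂ) : ev (C c) x = (c : ℂ) := by
  simp [ev, toC]

private theorem ev_X (x : ℂ) : ev (X : (↥O)[X]) x = x := by
  simp [ev, toC]

private theorem ev_sum {ι : Type} (s : Finset ι) (f : ι → (↥O)[X]) (x : ℂ) :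
    ev (∑ l ∈ s, f l) x = ∑ l ∈ s, ev (f l) x := by
  simp [ev, toC, Polynomial.map_sum, eval_finsetSum]

private theorem ev_Wp (π : Par O X0) (x : ℤ × ℤ) :
    ev (Wp π x) X0 = ev π.B X0 * om π x := by
  unfold Wp om
  rw [ev_add, ev_mul, ev_mul, ev_C, ev_C, mul_div_cancel₀ _ π.hB]
  push_cast
  rfl

private theorem ev_Zp (π : Par O X0) (x : ℤ × ℤ) :
    ev (Zp π x) X0 = ev π.A X0 * ze π x := by
  unfold Zp ze
  rw [ev_add, ev_mul, ev_mul, ev_C, ev_C, mul_div_cancel₀ _ π.hA]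
  push_cast
  rfl

private theorem ev_PP (π : Par O X0) (a b : Idx) :
    ev (PP π a b) X0 = ev π.A X0 ^ a.2 * ev π.B X0 ^ b.2 *
      ∑ l ∈ range (min a.2 b.2 + 1),
        ((l.factorial * a.2.choose l * b.2.choose l : ℕ) : ℂ) * ze π b.1 ^ (a.2 - l) *
          om π a.1 ^ (b.2 - l) := by
  unfold PP
  rw [ev_sum, mul_sum]
  refine sum_congr rfl fun l hl => ?_
  rw [mem_range] at hl
  have h1 : l ≤ a.2 := by omega
  have h2 : l ≤ b.2 := by omega
  rw [ev_mul, ev_mul, ev_mul, ev_pow, ev_pow, ev_pow, ev_mul, ev_C,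
    ev_Wp π _, ev_Zp π _, mul_pow, mul_pow, mul_pow]
  have e1 : ev π.A X0 ^ a.2 = ev π.A X0 ^ (a.2 - l) * ev π.A X0 ^ l := by
    rw [← pow_add]
    congr 1
    omega
  have e2 : ev π.B X0 ^ b.2 = ev π.B X0 ^ (b.2 - l) * ev π.B X0 ^ l := by
    rw [← pow_add]
    congr 1
    omega
  rw [e1, e2]
  push_cast
  ring

private theorem hn_nonneg (x : ℤ × ℤ) : 0 ≤ hn x := by
  unfold hn
  have h1 := sq_nonneg x.1
  have h2 := sq_nonneg x.2
  omega

private theorem hn_ge (x : ℤ × ℤ) : x.1 ^ 2 + x.2 ^ 2 ≤ 2 * hn x := by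
  unfold hn
  omega

private theorem EX_eq (a b : Idx) : ((EX a b : ℕ) : ℤ) =
    (a.1.1 * b.1.1 + a.1.2 * b.1.2) + ((hn a.1).toNat + (hn b.1).toNat : ℤ) := by
  unfold EX
  have h1 := hn_ge a.1
  have h2 := hn_ge b.1
  have h3 := hn_nonneg a.1
  have h4 := hn_nonneg b.1
  have h5 : 0 ≤ a.1.1 * b.1.1 + a.1.2 * b.1.2 + hn a.1 + hn b.1 := by
    nlinarith [sq_nonneg (a.1.1 + b.1.1), sq_nonneg (a.1.2 + b.1.2)]
  rw [Int.toNat_of_nonneg h5, Int.toNat_of_nonneg h3, Int.toNat_of_nonneg h4]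
  ring

private theorem cst_one {u v : ℂ} (hu0 : u ≠ 0) (hv0 : v ≠ 0) (J : ℕ) (e : ℤ)
    (h1 : -((J : ℤ) ^ 2) ≤ e) (h2 : e ≤ (J : ℤ) ^ 2) :
    u ^ ((J : ℤ) ^ 2 + e).toNat * v ^ ((J : ℤ) ^ 2 - e).toNat =
      (u * v) ^ (J ^ 2) * (u / v) ^ e := by
  rw [← zpow_natCast u, ← zpow_natCast v, Int.toNat_of_nonneg (by linarith),
    Int.toNat_of_nonneg (by linarith), zpow_add₀ hu0, zpow_sub₀ hv0, div_zpow, mul_pow]
  have e1 : u ^ ((J : ℤ) ^ 2) = u ^ (J ^ 2) := by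
    rw [← zpow_natCast u (J ^ 2)]
    push_cast
    rfl
  have e2 : v ^ ((J : ℤ) ^ 2) = v ^ (J ^ 2) := by
    rw [← zpow_natCast v (J ^ 2)]
    push_cast
    rfl
  rw [e1, e2]
  ring

private theorem exo_bound {J : ℕ} {a b : Idx} (ha : a.1 ∈ nd J) (hb : b.1 ∈ nd J) (i j : Fin 2) :
    -((J : ℤ) ^ 2) ≤ exo a b i j ∧ exo a b i j ≤ (J : ℤ) ^ 2 := by
  unfold nd at ha hb
  rw [mem_product, mem_Icc, mem_Icc] at ha hb
  obtain ⟨⟨a1, a2⟩, a3, a4⟩ := ha
  obtain ⟨⟨b1, b2⟩, b3, b4⟩ := hb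
  have key : ∀ p q : ℤ, -(J : ℤ) ≤ p → p ≤ J → -(J : ℤ) ≤ q → q ≤ J →
      -((J : ℤ) ^ 2) ≤ p * q ∧ p * q ≤ (J : ℤ) ^ 2 := by
    intro p q h1 h2 h3 h4
    constructor <;> nlinarith
  unfold exo
  fin_cases i <;> fin_cases j <;> exact key _ _ (by assumption) (by assumption) (by assumption)
    (by assumption)

/-- the exponent -/
private noncomputable def EE (π : Par O X0) (i j : Fin 2) : ℂ :=
  ev (π.x i) X0 * ev (π.y j) X0 / (ev π.A X0 * ev π.B X0)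

/-- the ratio of the exact value and the approximation -/
private noncomputable def et (π : Par O X0) (u v : Fin 2 → Fin 2 → O) (i j : Fin 2) : ℂ :=
  Complex.exp (EE π i j) / (X0 ^ (if i = j then 1 else 0 : ℕ) * ((u i j : ℂ) / (v i j : ℂ)))

/-- the factor near `1` -/
private noncomputable def omg (π : Par O X0) (u v : Fin 2 → Fin 2 → O) (a b : Idx) : ℂ :=
  ∏ i : Fin 2, ∏ j : Fin 2, et π u v i j ^ exo a b i j

private theorem ne0 {z : O} (h : z ≠ 0) : (z : ℂ) ≠ 0 := fun h' => h (Subtype.ext h')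

private theorem hval (π : Par O X0) {J : ℕ} {u v : Fin 2 → Fin 2 → O} (hV : Val π J u v)
    (i j : Fin 2) : Complex.exp (ev (π.x i) X0 * ev (π.y j) X0 / (ev π.A X0 * ev π.B X0)) =
      X0 ^ (if i = j then 1 else 0 : ℕ) * (((u i j : ℂ) / (v i j : ℂ)) * et π u v i j) := by
  have h1 := ne0 (hV.hu i j)
  have h2 := ne0 (hV.hv i j)
  have h3 : X0 ^ (if i = j then 1 else 0 : ℕ) ≠ 0 := pow_ne_zero _ π.hX
  have h4 : X0 ^ (if i = j then 1 else 0 : ℕ) * ((u i j : ℂ) / (v i j : ℂ)) ≠ 0 :=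
    mul_ne_zero h3 (div_ne_zero h1 h2)
  rw [← mul_assoc]
  unfold et EE
  rw [mul_div_cancel₀ _ h4]

private theorem exp_eq (π : Par O X0) {J : ℕ} {u v : Fin 2 → Fin 2 → O} (hV : Val π J u v)
    (a b : Idx) :
    Complex.exp (om π a.1 * ze π b.1) =
      X0 ^ (a.1.1 * b.1.1 + a.1.2 * b.1.2) *
        (∏ i : Fin 2, ∏ j : Fin 2, ((u i j : ℂ) / (v i j : ℂ)) ^ exo a b i j) *
        omg π u v a b := by
  have hX := π.hX
  have hA := π.hA
  have hB := π.hB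
  have e : om π a.1 * ze π b.1 =
      ((a.1.1 * b.1.1 : ℤ) : ℂ) * (ev (π.x 0) X0 * ev (π.y 0) X0 / (ev π.A X0 * ev π.B X0)) +
      ((a.1.1 * b.1.2 : ℤ) : ℂ) * (ev (π.x 0) X0 * ev (π.y 1) X0 / (ev π.A X0 * ev π.B X0)) +
      (((a.1.2 * b.1.1 : ℤ) : ℂ) * (ev (π.x 1) X0 * ev (π.y 0) X0 / (ev π.A X0 * ev π.B X0)) +
      ((a.1.2 * b.1.2 : ℤ) : ℂ) *
        (ev (π.x 1) X0 * ev (π.y 1) X0 / (ev π.A X0 * ev π.B X0))) := by
    unfold om ze
    push_cast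
    field_simp
  rw [e, Complex.exp_add, Complex.exp_add, Complex.exp_add, Complex.exp_int_mul,
    Complex.exp_int_mul, Complex.exp_int_mul, Complex.exp_int_mul, hval π hV, hval π hV,
    hval π hV, hval π hV]
  have e00 : (if (0 : Fin 2) = 0 then 1 else 0 : ℕ) = 1 := if_pos rfl
  have e01 : (if (0 : Fin 2) = 1 then 1 else 0 : ℕ) = 0 := if_neg (by decide)
  have e10 : (if (1 : Fin 2) = 0 then 1 else 0 : ℕ) = 0 := if_neg (by decide)
  have e11 : (if (1 : Fin 2) = 1 then 1 else 0 : ℕ) = 1 := if_pos rfl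
  rw [e00, e01, e10, e11, pow_one, pow_zero, one_mul, one_mul, mul_zpow, mul_zpow,
    mul_zpow, mul_zpow, mul_zpow, mul_zpow, zpow_add₀ hX]
  unfold omg
  simp only [Fin.prod_univ_two, exo]
  simp only [Matrix.cons_val_zero, Matrix.cons_val_one, Fin.isValue]
  ring

private theorem keyC (π : Par O X0) {J : ℕ} {u v : Fin 2 → Fin 2 → O} (hV : Val π J u v)
    (a b : Idx) (ha : a.1 ∈ nd J) (hb : b.1 ∈ nd J) :
    ((cst u v J a b : O) : ℂ) * X0 ^ EX a b * omg π u v a b =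
      X0 ^ (hn a.1).toNat * X0 ^ (hn b.1).toNat *
        (∏ i : Fin 2, ∏ j : Fin 2, ((u i j : ℂ) * (v i j : ℂ)) ^ (J ^ 2)) *
        Complex.exp (om π a.1 * ze π b.1) := by
  have hX := π.hX
  have e1 : X0 ^ EX a b = X0 ^ (a.1.1 * b.1.1 + a.1.2 * b.1.2) *
      (X0 ^ (hn a.1).toNat * X0 ^ (hn b.1).toNat) := by
    rw [← zpow_natCast X0 (EX a b), EX_eq,
      zpow_add₀ hX (a.1.1 * b.1.1 + a.1.2 * b.1.2), zpow_add₀ hX ((hn a.1).toNat : ℤ),
      zpow_natCast, zpow_natCast]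
  have e2 : ((cst u v J a b : O) : ℂ) =
      (∏ i : Fin 2, ∏ j : Fin 2, ((u i j : ℂ) * (v i j : ℂ)) ^ (J ^ 2)) *
        ∏ i : Fin 2, ∏ j : Fin 2, ((u i j : ℂ) / (v i j : ℂ)) ^ exo a b i j := by
    unfold cst
    push_cast
    rw [← prod_mul_distrib]
    refine prod_congr rfl fun i _ => ?_
    rw [← prod_mul_distrib]
    refine prod_congr rfl fun j _ => ?_
    obtain ⟨h1, h2⟩ := exo_bound ha hb i j
    exact cst_one (ne0 (hV.hu i j)) (ne0 (hV.hv i j)) J _ h1 h2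
  rw [e1, e2, exp_eq π hV a b]
  ring

/-- the product of the small factors -/
private theorem near (J : ℕ) (n : Fin 2 → Fin 2 → ℤ) (η : Fin 2 → Fin 2 → ℂ) (δ : ℝ)
    (hn : ∀ i j, |(n i j : ℝ)| ≤ (J : ℝ) ^ 2) (hη : ∀ i j, ‖η i j - 1‖ ≤ δ) (h1 : δ ≤ 1 / 2)
    (h2 : 6 * (J : ℝ) ^ 2 * δ ≤ 1) :
    ‖(∏ i : Fin 2, ∏ j : Fin 2, η i j ^ n i j) - 1‖ ≤ 12 * (J : ℝ) ^ 2 * δ := by
  have hδ : 0 ≤ δ := (norm_nonneg _).trans (hη 0 0)
  have hne : ∀ i j, η i j ≠ 0 := by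
    intro i j h
    have := hη i j
    rw [h, zero_sub, norm_neg, norm_one] at this
    linarith
  have hl : ∀ i j, ‖(n i j : ℂ) * Complex.log (η i j)‖ ≤ (J : ℝ) ^ 2 * (3 / 2 * δ) := by
    intro i j
    rw [norm_mul, Complex.norm_intCast]
    have h3 : ‖Complex.log (1 + (η i j - 1))‖ ≤ 3 / 2 * ‖η i j - 1‖ :=
      Complex.norm_log_one_add_half_le_self ((hη i j).trans h1)
    rw [add_sub_cancel] at h3
    exact mul_le_mul (hn i j) (h3.trans (by linarith [hη i j])) (norm_nonneg _) (by positivity)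
  have e : (∏ i : Fin 2, ∏ j : Fin 2, η i j ^ n i j) =
      Complex.exp (∑ i : Fin 2, ∑ j : Fin 2, (n i j : ℂ) * Complex.log (η i j)) := by
    rw [Complex.exp_sum]
    refine prod_congr rfl fun i _ => ?_
    rw [Complex.exp_sum]
    refine prod_congr rfl fun j _ => ?_
    rw [Complex.exp_int_mul, Complex.exp_log (hne i j)]
  have hs : ‖∑ i : Fin 2, ∑ j : Fin 2, (n i j : ℂ) * Complex.log (η i j)‖ ≤
      6 * (J : ℝ) ^ 2 * δ := by
    rw [Fin.sum_univ_two, Fin.sum_univ_two, Fin.sum_univ_two]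
    refine (norm_add_le _ _).trans ?_
    have h3 := norm_add_le ((n 0 0 : ℂ) * Complex.log (η 0 0)) ((n 0 1 : ℂ) * Complex.log (η 0 1))
    have h4 := norm_add_le ((n 1 0 : ℂ) * Complex.log (η 1 0)) ((n 1 1 : ℂ) * Complex.log (η 1 1))
    linarith [hl 0 0, hl 0 1, hl 1 0, hl 1 1]
  rw [e]
  refine (Complex.norm_exp_sub_one_le (hs.trans h2)).trans ?_
  linarith

/-- Row ENT -/
theorem pf_ENT (hTAY : Pool.Agent.H25.EE.T_TAY) : T_ENT := by
  intro O X0 π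
  set m : ℝ := min 1 ‖X0‖ with hm
  have hm0 : 0 < m := lt_min one_pos (norm_pos_iff.2 π.hX)
  obtain ⟨J1, hJ1⟩ := exists_nat_ge (Real.log (12 / m))
  refine ⟨max 2 J1, fun J hJ u v hV a ha b hb => ?_⟩
  have hJ2 : 2 ≤ J := (le_max_left _ _).trans hJ
  have hJ3 : J1 ≤ J := (le_max_right _ _).trans hJ
  have hJ2' : (2 : ℝ) ≤ J := by exact_mod_cast hJ2
  have hJ3' : (J1 : ℝ) ≤ J := by exact_mod_cast hJ3
  have ha1 : a.1 ∈ nd J := (mem_sigma.mp ha).1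
  have hb1 : b.1 ∈ nd J := (mem_sigma.mp hb).1
  set δ : ℝ := Real.exp (-((J : ℝ) ^ 5)) * J / m with hδ
  -- the small number
  have hbig : 12 * (J : ℝ) ^ 2 * δ ≤ Real.exp (-((J : ℝ) ^ 4 * Real.log J)) := by
    have hJ0 : (0 : ℝ) < J := by linarith
    have h1 : Real.log J ≤ J - 1 := Real.log_le_sub_one_of_pos hJ0
    have e1 : 12 * (J : ℝ) ^ 2 * δ =
        Real.exp (Real.log (12 / m) + 3 * Real.log J - (J : ℝ) ^ 5) := by
      rw [sub_eq_add_neg, Real.exp_add, Real.exp_add, Real.exp_log (by positivity),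
        show (3 : ℝ) * Real.log J = Real.log ((J : ℝ) ^ 3) by rw [Real.log_pow]; push_cast; ring,
        Real.exp_log (by positivity), hδ]
      ring
    rw [e1, Real.exp_le_exp]
    have h2 : (J : ℝ) ^ 4 * Real.log J ≤ (J : ℝ) ^ 4 * (J - 1) :=
      mul_le_mul_of_nonneg_left h1 (by positivity)
    have h3 : 4 * (J : ℝ) ≤ (J : ℝ) ^ 4 := by
      have : (4 : ℝ) ≤ (J : ℝ) ^ 3 := by
        calc (4 : ℝ) ≤ 2 ^ 3 := by norm_num
          _ ≤ (J : ℝ) ^ 3 := pow_le_pow_left₀ (by norm_num) hJ2' 3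
      calc 4 * (J : ℝ) ≤ (J : ℝ) ^ 3 * J := mul_le_mul_of_nonneg_right this hJ0.le
        _ = (J : ℝ) ^ 4 := by ring
    have h4 : (J : ℝ) ^ 5 = (J : ℝ) ^ 4 * J := by ring
    have h5 : (J : ℝ) ^ 4 * (J - 1) = (J : ℝ) ^ 4 * J - (J : ℝ) ^ 4 := by ring
    linarith
  have hone : 12 * (J : ℝ) ^ 2 * δ ≤ 1 := hbig.trans (Real.exp_le_one_iff.2 (by
    have : 0 ≤ (J : ℝ) ^ 4 * Real.log J :=
      mul_nonneg (by positivity) (Real.log_nonneg (by linarith))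
    linarith))
  have hδ0 : 0 ≤ δ := by positivity
  have hη : ∀ i j, ‖et π u v i j - 1‖ ≤ δ := by
    intro i j
    have h1 := ne0 (hV.hu i j)
    have h2 := ne0 (hV.hv i j)
    set g : ℂ := X0 ^ (if i = j then 1 else 0 : ℕ) * ((u i j : ℂ) / (v i j : ℂ)) with hg
    have h3 : g ≠ 0 := mul_ne_zero (pow_ne_zero _ π.hX) (div_ne_zero h1 h2)
    have h4 : et π u v i j - 1 = (Complex.exp (EE π i j) - g) / g := by
      unfold et
      rw [← hg, sub_div, div_self h3]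
    have hX1 : m ≤ ‖X0 ^ (if i = j then 1 else 0 : ℕ)‖ := by
      split_ifs
      · rw [pow_one]
        exact min_le_right _ _
      · rw [pow_zero, norm_one]
        exact min_le_left _ _
    have hvJ : ‖(v i j : ℂ)‖ ≤ J := by
      have hq : 1 ≤ qq π := Nat.one_le_pow _ _ π.hr
      exact (le_self_pow₀ (hV.hv1 i j) (by omega)).trans (hV.hvM i j)
    have hg1 : m / J ≤ ‖g‖ := by
      rw [hg, norm_mul, norm_div]
      have hv0 : 0 < ‖(v i j : ℂ)‖ := norm_pos_iff.2 h2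
      have h5 : 1 / (J : ℝ) ≤ ‖(u i j : ℂ)‖ / ‖(v i j : ℂ)‖ :=
        div_le_div₀ (norm_nonneg _) (hV.hu1 i j) hv0 hvJ
      calc m / J = m * (1 / J) := by ring
        _ ≤ _ := mul_le_mul hX1 h5 (by positivity) (norm_nonneg _)
    rw [h4, norm_div]
    have h6 : ‖Complex.exp (EE π i j) - g‖ ≤ Real.exp (-((J : ℝ) ^ 5)) := hV.herr i j
    have hmJ : 0 < m / (J : ℝ) := by positivity
    calc ‖Complex.exp (EE π i j) - g‖ / ‖g‖ ≤ Real.exp (-((J : ℝ) ^ 5)) / (m / J) :=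
          div_le_div₀ (Real.exp_pos _).le h6 hmJ hg1
      _ = δ := by
          rw [hδ, div_div_eq_mul_div]
  refine ⟨omg π u v a b, ?_, ?_⟩
  · refine le_trans ?_ hbig
    refine near J (fun i j => exo a b i j) (fun i j => et π u v i j) δ ?_ hη ?_ ?_
    · intro i j
      obtain ⟨h1, h2⟩ := exo_bound ha1 hb1 i j
      rw [abs_le]
      constructor
      · exact_mod_cast h1
      · exact_mod_cast h2
    · have : (4 : ℝ) ≤ (J : ℝ) ^ 2 := by nlinarith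
      nlinarith
    · nlinarith
  have h := (hTAY a.2 b.2 (om π a.1) (ze π b.1)).mul_left (ra π a * cb π u v J b)
  have e1 : ra π a * cb π u v J b * (Complex.exp (om π a.1 * ze π b.1) *
      ∑ l ∈ range (min a.2 b.2 + 1),
        ((l.factorial * a.2.choose l * b.2.choose l : ℕ) : ℂ) * ze π b.1 ^ (a.2 - l) *
          om π a.1 ^ (b.2 - l)) = ev (mm π u v J a b) X0 * omg π u v a b := by
    unfold mm
    rw [ev_mul, ev_mul, ev_C, ev_pow, ev_X, ev_PP π a b]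
    unfold ra cb
    have hk := keyC π hV a b ha1 hb1
    linear_combination (-(ev π.A X0 ^ a.2 * ev π.B X0 ^ b.2 *
      ∑ l ∈ range (min a.2 b.2 + 1),
        ((l.factorial * a.2.choose l * b.2.choose l : ℕ) : ℂ) * ze π b.1 ^ (a.2 - l) *
          om π a.1 ^ (b.2 - l))) * hk
  rw [e1] at h
  have e2 : (fun n => al π a n * be π u v J b n) = fun n : ℕ => ra π a * cb π u v J b *
      ((n.descFactorial a.2 : ℂ) * om π a.1 ^ (n - a.2) *
        ((n.descFactorial b.2 : ℂ) * ze π b.1 ^ (n - b.2)) / (n.factorial : ℂ)) := by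
    funext n
    unfold al be
    ring
  rw [e2]
  exact h

end Pool.Agent.H65.EM.ENT
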